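import Mathlib

set_option autoImplicit false

namespace Pool.Agent.Results.MP_6ec7bd_co.Pat

/-- number of (overlapping) occurrences of `v` as a factor of `w` -/
def occ (w v : List Bool) : ℕ := (w.tails.filter (fun t => v.isPrefixOf t)).length

/-- the integer represented by a binary word, most significant digit first -/
def val (w : List Bool) : ℕ := w.foldl (fun a b => 2 * a + b.toNat) 0

/-- number of leading zeros -/
def lead (v : List Bool) : ℕ := (v.takeWhile (fun b => !b)).length

/-- number of trailing zeros -/
def trail (v : List Bool) : ℕ := lead v.reverse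

/-- `e_v(n)` -/
def e (v : List Bool) (n : ℕ) : ℕ := occ (List.replicate (lead v) false ++ n.bits.reverse) v

/-- the admissible pairs `(x, y)` -/
def Adm (v x y : List Bool) : Prop :=
  x.length + 1 = v.length ∧ y.length + 1 = v.length ∧
    Odd (occ (List.replicate (lead v) false ++ x) v + occ (y ++ x) v +
      occ (y ++ List.replicate (trail v) false) v)

/-- the lexicographically least admissible pair -/
def MinPair (v x y : List Bool) : Prop :=
  Adm v x y ∧ ∀ x' y', Adm v x' y' → x < x' ∨ (x = x' ∧ y ≤ y')

theorem result : ∃ (v x y : List Bool) (d A : ℕ) (C B : ℚ),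
    2 ≤ v.length ∧ true ∈ v ∧ v ≠ [true, true] ∧ MinPair v x y ∧
    C = val x / 2 ^ (v.length - 1 + trail v) ∧ B = val y - 2 ^ trail v * C ∧
    2 ^ (2 * v.length + 1) ≤ d ∧ IsLeast {l : ℕ | 1 ≤ l ∧ Odd (e v (l * d))} A ∧
    C * d + B < A := by
  refine ⟨[true, false, false, false, false], [false, false, false, true],
    [false, false, false, true], 2115, 11, 1 / 256, 15 / 16, by decide, by decide, by decide,
    ⟨⟨rfl, rfl, by decide⟩, ?_⟩, ?_, ?_, by decide, ⟨⟨by decide, by decide +kernel⟩, ?_⟩, by norm_num⟩
  · rintro x' y' ⟨h1, h2, h3⟩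
    match x', y', h1, h2, h3 with
    | [a, b, c, d], [a', b', c', d'], _, _, h3 =>
      revert a b c d a' b' c' d'
      decide +kernel
  · norm_num [val, trail, lead, List.takeWhile]
  · norm_num [val, trail, lead, List.takeWhile]
  · rintro l ⟨h1, h2⟩
    by_contra h
    have key : ∀ l < 11, 1 ≤ l → ¬ Odd (e [true, false, false, false, false] (l * 2115)) := by
      decide +kernel
    exact key l (by omega) h1 h2

end Pool.Agent.Results.MP_6ec7bd_co.Pat
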